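import Pool.Agent.N282.PB.All

/-!
# Sign patterns of the Liouville function times almost every real character (helper282)

`f_d(m) = λ(m) (m/d)`, `λ` the Liouville function, `(m/d)` the Jacobi symbol. For all but at most `C D R₀^(-A)` of the odd
`d ≤ D`, for ALL `R` with `R₀ ≤ R ≤ D^c`, each of the `2^n` sign patterns of length `n` occurs in `f_d` with the frequency
`2^(-n)` (among the blocks `m+1, …, m+n`, `m ≤ R`, of integers prime to `d`), up to an error `R^(3/4+ε)`; and for all but at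
most `C D R₀^(-A)` of the primes `q ≤ D` all `2^n` patterns occur in `f_q` before `R₀ + n`.

Proof. High moments over `d` of the correlation sums: products of `2k` integers `∏_j (m_i + j)` which are squares are counted
with Bonami's inequality (helper694), from the number of pairs (helpers 49, 189, 738: the squarefree part of `m + j₀` divides
`n! ∏_j (m' + j)`); moments: helper249; the number of prime factors: helper764; patterns from correlations: helper915.
-/

set_option autoImplicit false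

open Classical

namespace Pool.Agent.Results.MP_52aa73_nt.RealCharacterTwists

/-- `f_d(m) = λ(m) (m/d)`: the Liouville function times the Jacobi symbol. -/
noncomputable def f (d m : ℕ) : ℤ := (-1) ^ (ArithmeticFunction.cardFactors m) * jacobiSym m d

/-- The number of the `1 ≤ m ≤ R` with `f_d(m + j) = e_j` for `1 ≤ j ≤ n`. -/
noncomputable def occ (n d R : ℕ) (e : ℕ → ℤ) : ℕ :=
  ((Finset.Icc 1 R).filter fun m => ∀ j ∈ Finset.Icc 1 n, f d (m + j) = e j).card

/-- The number of the `1 ≤ m ≤ R` for which `m + 1, …, m + n` are prime to `d`. -/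
noncomputable def cop (n d R : ℕ) : ℕ :=
  ((Finset.Icc 1 R).filter fun m => ∀ j ∈ Finset.Icc 1 n, Nat.Coprime (m + j) d).card

/-- For all `n` and `ε, A > 0` there are `c, C > 0` such that for all `D` and `R₀ ≥ 1`: (1) all but at most `C D R₀^(-A)` of the
odd `d ≤ D` satisfy, for ALL `R₀ ≤ R ≤ D^c` and all signs `e_1, …, e_n`, `|occ - 2^(-n) cop| ≤ R^(3/4+ε)`; (2) if `R₀ ≤ D^c`,
for all but at most `C D R₀^(-A)` of the primes `q ≤ D` each pattern of `n` signs occurs in `f_q` at `m + 1, …, m + n` for some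
`1 ≤ m ≤ R₀`. -/
theorem result (n : ℕ) (ε A : ℝ) (hε : 0 < ε) (hA : 0 < A) : ∃ c C : ℝ, 0 < c ∧ 0 < C ∧ ∀ D R₀ : ℕ, 1 ≤ R₀ →
    (((Finset.Icc 1 D).filter fun d => Odd d ∧ ¬ ∀ R : ℕ, R₀ ≤ R → (R : ℝ) ≤ (D : ℝ) ^ c → ∀ e : ℕ → ℤ,
      (∀ j, e j = 1 ∨ e j = -1) → |(occ n d R e : ℝ) - cop n d R / 2 ^ n| ≤ (R : ℝ) ^ (3 / 4 + ε)).card : ℝ) ≤
        C * D * (R₀ : ℝ) ^ (-A) ∧
    ((R₀ : ℝ) ≤ (D : ℝ) ^ c →
      (((Finset.Icc 1 D).filter fun q => q.Prime ∧ ∃ e : ℕ → ℤ, (∀ j, e j = 1 ∨ e j = -1) ∧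
        ∀ m ∈ Finset.Icc 1 R₀, ∃ j ∈ Finset.Icc 1 n, f q (m + j) ≠ e j).card : ℝ) ≤ C * D * (R₀ : ℝ) ^ (-A)) :=
  Pool.Agent.N282.PB.all n ε A hε hA

end Pool.Agent.Results.MP_52aa73_nt.RealCharacterTwists
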